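import Mathlib

set_option autoImplicit false

namespace Pool.Agent.Results.MP_981724_an.NoPlane

open Filter Topology ZeroAtInfty FourierTransform

/-- The numerical range of an operator on a real normed space. -/
def numRange {X : Type} [NormedAddCommGroup X] [NormedSpace ℝ X] (T : X →L[ℝ] X) : Set ℝ :=
  {r | ∃ (x : X) (φ : X →L[ℝ] ℝ), ‖x‖ = 1 ∧ ‖φ‖ = 1 ∧ φ x = 1 ∧ r = φ (T x)}

section Aux

def B : Type := C₀(ℕ × ℝ, ℝ)

noncomputable instance : NormedAddCommGroup B :=
  inferInstanceAs (NormedAddCommGroup C₀(ℕ × ℝ, ℝ))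

noncomputable instance : NormedSpace ℝ B := inferInstanceAs (NormedSpace ℝ C₀(ℕ × ℝ, ℝ))

instance : CompleteSpace B := inferInstanceAs (CompleteSpace C₀(ℕ × ℝ, ℝ))

def B.c (F : B) : C₀(ℕ × ℝ, ℝ) := F

def B.mk (F : C₀(ℕ × ℝ, ℝ)) : B := F

instance : CoeFun B (fun _ => ℕ × ℝ → ℝ) := ⟨fun F => F.c⟩

theorem B_ext (F G : B) (h : ∀ p, F p = G p) : F = G := ZeroAtInftyContinuousMap.ext (f := F.c) h

theorem B_le (F : B) (p : ℕ × ℝ) : |F p| ≤ ‖F‖ := F.c.toBCF.norm_coe_le_norm p

theorem B_norm_le (F : B) (C : ℝ) (hC : 0 ≤ C) (h : ∀ p, |F p| ≤ C) : ‖F‖ ≤ C :=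
  (BoundedContinuousFunction.norm_le (f := F.c.toBCF) hC).2 h

/-- towers of successive derivatives -/
def X : Submodule ℝ B where
  carrier := {F | ∀ k t, HasDerivAt (fun s => F (k, s)) (F (k + 1, t)) t}
  add_mem' := fun {_ _} hF hG k t => (hF k t).add (hG k t)
  zero_mem' := fun _ t => hasDerivAt_const t (0 : ℝ)
  smul_mem' := fun c _ hF k t => (hF k t).const_mul c

theorem X_closed : IsClosed (X : Set B) := by
  refine IsSeqClosed.isClosed fun F G hF hFG k t => ?_
  have hu := ZeroAtInftyContinuousMap.tendsto_iff_tendstoUniformly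
    (F := fun n => (F n).c) (f := G.c) |>.1 hFG
  refine hasDerivAt_of_tendstoUniformly (l := atTop) (f := fun n s => F n (k, s))
    (f' := fun n s => F n (k + 1, s)) (g' := fun s => G (k + 1, s))
    (hu.comp fun s => (k + 1, s)) (Eventually.of_forall fun n x => hF n k x) (fun x => ?_) t
  exact hu.tendsto_at (k, x)

instance : CompleteSpace X := X_closed.completeSpace_coe

/-- the maps `(k, t) ↦ (k + j, t + a)` -/
noncomputable def mv (j : ℕ) (a : ℝ) : CocompactMap (ℕ × ℝ) (ℕ × ℝ) where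
  toFun p := (p.1 + j, p.2 + a)
  continuous_toFun := by fun_prop
  cocompact_tendsto' := by
    have : Isometry fun p : ℕ × ℝ => (p.1 + j, p.2 + a) := by
      refine Isometry.of_dist_eq fun p q => ?_
      simp [Prod.dist_eq, Nat.dist_eq]
    exact this.isClosedEmbedding.tendsto_cocompact

noncomputable def S (j : ℕ) (a : ℝ) : X →L[ℝ] X :=
  LinearMap.mkContinuous
    { toFun := fun F => ⟨B.mk (F.1.c.comp (mv j a)), fun k t => by
        have h := (F.2 (k + j) (t + a)).comp_add_const t a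
        have e : k + j + 1 = k + 1 + j := by ring
        rw [e] at h
        exact h⟩
      map_add' := fun _ _ => rfl
      map_smul' := fun _ _ => rfl } 1 (fun F => by
      rw [one_mul]
      exact B_norm_le _ _ (norm_nonneg F) fun p => B_le F.1 _)

theorem S_apply (j : ℕ) (a : ℝ) (F : X) (k : ℕ) (t : ℝ) :
    (S j a F).1 (k, t) = F.1 (k + j, t + a) := rfl

theorem S_norm (j : ℕ) (a : ℝ) (F : X) : ‖S j a F‖ ≤ ‖F‖ :=
  B_norm_le _ _ (norm_nonneg F) fun _ => B_le F.1 _

theorem lip (F : X) (k : ℕ) (s t : ℝ) : |F.1 (k, t) - F.1 (k, s)| ≤ ‖F‖ * |t - s| := by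
  have := Convex.norm_image_sub_le_of_norm_hasDerivWithin_le (𝕜 := ℝ) (f := fun u => F.1 (k, u))
    (f' := fun u => F.1 (k + 1, u)) (s := Set.univ) (C := ‖F‖)
    (fun u _ => (F.2 k u).hasDerivWithinAt) (fun u _ => B_le F.1 _) convex_univ
    (Set.mem_univ s) (Set.mem_univ t)
  exact this

theorem taylor (F : X) (k : ℕ) (s t : ℝ) :
    |F.1 (k, t) - F.1 (k, s) - (t - s) * F.1 (k + 1, s)| ≤ ‖F‖ * |t - s| * |t - s| := by
  have := Convex.norm_image_sub_le_of_norm_hasDerivWithin_le (𝕜 := ℝ)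
    (f := fun u => F.1 (k, u) - u * F.1 (k + 1, s))
    (f' := fun u => F.1 (k + 1, u) - F.1 (k + 1, s)) (s := Metric.closedBall s |t - s|)
    (C := ‖F‖ * |t - s|)
    (fun u _ => ((F.2 k u).sub (by simpa using (hasDerivAt_id u).mul_const (F.1 (k + 1, s)))
      ).hasDerivWithinAt)
    (fun u hu => (lip F (k + 1) s u).trans (mul_le_mul_of_nonneg_left hu (norm_nonneg F)))
    (convex_closedBall _ _) (Metric.mem_closedBall_self (abs_nonneg _))
    (show dist t s ≤ |t - s| from le_rfl)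
  refine le_trans (le_of_eq ?_) this
  rw [Real.norm_eq_abs]; congr 1; ring

theorem hasDerivAt_S (F : X) (t : ℝ) : HasDerivAt (fun a => S 0 a F) (S 1 0 (S 0 t F)) t := by
  rw [hasDerivAt_iff_isLittleO]
  have h1 : (fun a => S 0 a F - S 0 t F - (a - t) • S 1 0 (S 0 t F)) =O[𝓝 t]
      fun a => (a - t) * (a - t) := by
    refine Asymptotics.IsBigO.of_bound ‖F‖ (Eventually.of_forall fun a => ?_)
    refine B_norm_le _ _ (by positivity) fun p => ?_
    obtain ⟨k, s⟩ := p
    have := taylor F k (s + t) (s + a)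
    have e : s + a - (s + t) = a - t := by ring
    rw [e] at this
    rw [norm_mul, ← mul_assoc]
    refine le_trans (le_of_eq ?_) this
    congr 1
    change F.1 (k + 0, s + a) - F.1 (k + 0, s + t) - (a - t) * F.1 (k + 1 + 0, s + 0 + t) = _
    simp
  refine h1.trans_isLittleO ?_
  have h2 : (fun a : ℝ => a - t) =o[𝓝 t] fun _ => (1 : ℝ) := by
    rw [Asymptotics.isLittleO_one_iff]
    have : Tendsto (fun a : ℝ => a - t) (𝓝 t) (𝓝 (t - t)) := tendsto_id.sub_const t
    simpa using this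
  simpa using h2.mul_isBigO (Asymptotics.isBigO_refl (fun a : ℝ => a - t) (𝓝 t))

theorem S_zero (F : X) : S 0 0 F = F := by
  apply Subtype.ext
  refine B_ext _ _ ?_
  rintro ⟨k, t⟩
  rw [S_apply]; simp

theorem skew (F : X) (φ : X →L[ℝ] ℝ) (hF : ‖F‖ = 1) (hφ : ‖φ‖ = 1) (h : φ F = 1) :
    φ (S 1 0 F) = 0 := by
  have h1 := φ.hasFDerivAt.comp_hasDerivAt (0 : ℝ) (hasDerivAt_S F 0)
  rw [S_zero] at h1
  refine IsLocalMax.hasDerivAt_eq_zero (Eventually.of_forall fun a => ?_) h1
  simp only [Function.comp, S_zero, h]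
  have := φ.le_opNorm (S 0 a F)
  have h2 := S_norm 0 a F
  rw [hφ, one_mul] at this
  exact (le_abs_self _).trans (this.trans (h2.trans hF.le))

/-- evaluation -/
noncomputable def ev (p : ℕ × ℝ) : X →L[ℝ] ℝ :=
  LinearMap.mkContinuous
    { toFun := fun F => F.1 p
      map_add' := fun _ _ => rfl
      map_smul' := fun _ _ => rfl } 1 (fun F => by rw [one_mul]; exact B_le F.1 p)

theorem ode_analytic {Y : Type} [NormedAddCommGroup Y] [NormedSpace ℝ Y] [CompleteSpace Y]
    (T : Y →L[ℝ] Y) (u : ℝ → Y) (hu : ∀ t, HasDerivAt u (T (u t)) t) (t : ℝ) :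
    AnalyticAt ℝ u t := by
  have h1 : u = fun a : ℝ => NormedSpace.exp (a • T) (u 0) := by
    refine ODE_solution_unique_univ (v := fun _ => T) (s := fun _ => Set.univ)
      (K := ‖T‖₊) (t₀ := 0) (fun _ => T.lipschitz.lipschitzOnWith)
      (fun t => ⟨hu t, trivial⟩) (fun t => ⟨?_, trivial⟩) ?_
    · have := (hasDerivAt_exp_smul_const' (𝕂 := ℝ) T t).clm_apply (hasDerivAt_const t (u 0))
      simpa using this
    · simp
  have h2 : u = fun a : ℝ =>
      (ContinuousLinearMap.apply ℝ Y (u 0)) (NormedSpace.exp (a • T)) := h1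
  rw [h2]
  refine (ContinuousLinearMap.analyticAt _ _).comp ?_
  refine (NormedSpace.exp_analytic (𝕂 := ℝ) _).comp ?_
  exact analyticAt_id.smul analyticAt_const

theorem analytic (F : X) (k : ℕ) : AnalyticOnNhd ℝ (fun t => F.1 (k, t)) Set.univ := by
  have h2 : (fun t => F.1 (k, t)) = fun t : ℝ => ev (k, 0) (S 0 t F) := by
    funext t
    change _ = (S 0 t F).1 (k, 0)
    rw [S_apply]; simp
  rw [h2]
  intro t _
  exact (ContinuousLinearMap.analyticAt _ _).comp
    (ode_analytic (S 1 0) (fun a => S 0 a F) (hasDerivAt_S F) t)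

theorem tendsto_slice (F : B) (k : ℕ) : Tendsto (fun t : ℝ => F (k, t)) (cocompact ℝ) (𝓝 0) := by
  have : Isometry fun t : ℝ => ((k, t) : ℕ × ℝ) := by
    refine Isometry.of_dist_eq fun p q => ?_
    simp [Prod.dist_eq]
  exact (zero_at_infty F.c).comp this.isClosedEmbedding.tendsto_cocompact

theorem attain (F : B) (h : ‖F‖ = 1) : ∃ p, |F p| = 1 := by
  by_contra hn
  push Not at hn
  have hlt : ∀ p, |F p| < 1 := fun p => lt_of_le_of_ne (h ▸ B_le F p) (hn p)
  have h1 : ∀ᶠ p in cocompact (ℕ × ℝ), |F p| < 1 / 2 := by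
    have := (zero_at_infty F.c).norm
    rw [norm_zero] at this
    exact this.eventually (gt_mem_nhds (by norm_num))
  obtain ⟨K, hK, hK'⟩ := mem_cocompact.1 h1
  obtain ⟨q, -, hq⟩ := (hK.insert (0, 0)).exists_isMaxOn (Set.insert_nonempty _ _)
    (f := fun p => |F p|) (F.c.continuous.abs.continuousOn)
  have : ‖F‖ ≤ max (1 / 2) |F q| := by
    refine B_norm_le _ _ (le_max_of_le_right (abs_nonneg _)) fun p => ?_
    by_cases hp : p ∈ K
    · exact le_max_of_le_right (hq (Set.mem_insert_of_mem _ hp))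
    · exact le_max_of_le_left (hK' hp).le
  have h2 : max (1 / 2) |F q| < 1 := max_lt (by norm_num) (hlt q)
  linarith

theorem no_plane (F G : X) (h : ∀ a b : ℝ, a ^ 2 + b ^ 2 = 1 → ‖a • F + b • G‖ = 1) : False := by
  have hle : ∀ p, F.1 p ^ 2 + G.1 p ^ 2 ≤ 1 := by
    intro p
    by_contra hp
    push Not at hp
    set r := Real.sqrt (F.1 p ^ 2 + G.1 p ^ 2) with hr
    have hr2 : r ^ 2 = F.1 p ^ 2 + G.1 p ^ 2 := Real.sq_sqrt (by positivity)
    have hr1 : 1 < r := Real.lt_sqrt_of_sq_lt (by simpa using hp)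
    have h1 := h (F.1 p / r) (G.1 p / r) (by field_simp; linarith)
    have h2 := B_le (((F.1 p / r) • F + (G.1 p / r) • G : X) : B) p
    have h3 : (((F.1 p / r) • F + (G.1 p / r) • G : X) : B) p = r := by
      change F.1 p / r * F.1 p + G.1 p / r * G.1 p = r
      field_simp; linarith
    rw [h3] at h2
    have h4 : |r| ≤ 1 := h2.trans (le_of_eq h1)
    linarith [le_abs_self r]
  have hcount : {p : ℕ × ℝ | F.1 p ^ 2 + G.1 p ^ 2 = 1}.Countable := by
    have : {p : ℕ × ℝ | F.1 p ^ 2 + G.1 p ^ 2 = 1} =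
        ⋃ k, (fun t : ℝ => ((k, t) : ℕ × ℝ)) '' {t | F.1 (k, t) ^ 2 + G.1 (k, t) ^ 2 - 1 = 0} := by
      ext ⟨k, t⟩
      simp [sub_eq_zero]
    rw [this]
    refine Set.countable_iUnion fun k => Set.Countable.image ?_ _
    have ha : AnalyticOnNhd ℝ (fun t => F.1 (k, t) ^ 2 + G.1 (k, t) ^ 2 - 1) Set.univ :=
      (((analytic F k).pow 2).add ((analytic G k).pow 2)).sub analyticOnNhd_const
    rcases ha.eqOn_zero_or_eventually_ne_zero_of_preconnected isPreconnected_univ with h0 | h0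
    · exfalso
      have h1 := (((tendsto_slice F.1 k).pow 2).add ((tendsto_slice G.1 k).pow 2)).sub_const 1
      have h2 : (fun t => F.1 (k, t) ^ 2 + G.1 (k, t) ^ 2 - 1) = fun _ => 0 :=
        funext fun t => h0 (Set.mem_univ t)
      rw [h2] at h1
      have := tendsto_nhds_unique h1 tendsto_const_nhds
      norm_num at this
    · have h1 := isDiscrete_of_codiscreteWithin
        (s := {t | F.1 (k, t) ^ 2 + G.1 (k, t) ^ 2 - 1 = 0}) (U := Set.univ) h0
      rw [Set.inter_univ] at h1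
      have := h1.to_subtype
      exact Set.countable_coe_iff.1 (TopologicalSpace.separableSpace_iff_countable.1 inferInstance)
  have hsub : Set.Icc (0 : ℝ) 1 ⊆ (fun p => |F.1 p|) '' {p : ℕ × ℝ | F.1 p ^ 2 + G.1 p ^ 2 = 1} := by
    intro a ha
    set b := Real.sqrt (1 - a ^ 2) with hb
    have hb2 : b ^ 2 = 1 - a ^ 2 := Real.sq_sqrt (by nlinarith [ha.1, ha.2])
    obtain ⟨p, hp⟩ := attain ((a • F + b • G : X) : B) (h a b (by linarith))
    change |a * F.1 p + b * G.1 p| = 1 at hp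
    have h1 := hle p
    rcases (abs_eq (by norm_num)).1 hp with h2 | h2
    · have h3 : (F.1 p - a) ^ 2 + (G.1 p - b) ^ 2 ≤ 0 := by nlinarith
      have h4 : F.1 p = a := by nlinarith [sq_nonneg (F.1 p - a), sq_nonneg (G.1 p - b)]
      have h5 : G.1 p = b := by nlinarith [sq_nonneg (F.1 p - a), sq_nonneg (G.1 p - b)]
      exact ⟨p, by simp only [Set.mem_ofPred_eq, h4, h5]; linarith,
        by simp only [h4]; exact abs_of_nonneg ha.1⟩
    · have h3 : (F.1 p + a) ^ 2 + (G.1 p + b) ^ 2 ≤ 0 := by nlinarith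
      have h4 : F.1 p = -a := by nlinarith [sq_nonneg (F.1 p + a), sq_nonneg (G.1 p + b)]
      have h5 : G.1 p = -b := by nlinarith [sq_nonneg (F.1 p + a), sq_nonneg (G.1 p + b)]
      exact ⟨p, by simp only [Set.mem_ofPred_eq, h4, h5]; linarith,
        by simp only [h4, abs_neg]; exact abs_of_nonneg ha.1⟩
  have := (hcount.image _).mono hsub
  have h5 := this.measure_zero (MeasureTheory.volume : MeasureTheory.Measure ℝ)
  simp at h5

/-- densities -/
noncomputable def den (k : ℕ) : ℝ → ℂ :=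
  (Set.Icc (0 : ℝ) (1 / 16)).indicator fun s => (-2 * Real.pi * Complex.I * s) ^ k

theorem den_int (k : ℕ) : MeasureTheory.Integrable (den k) := by
  refine (MeasureTheory.integrable_indicator_iff measurableSet_Icc).2 ?_
  exact Continuous.integrableOn_Icc (by fun_prop)

theorem den_succ (k : ℕ) : (fun s : ℝ => (-2 * Real.pi * Complex.I * s) • den k s) = den (k + 1) := by
  funext s
  by_cases hs : s ∈ Set.Icc (0 : ℝ) (1 / 16)
  · simp only [den, Set.indicator_of_mem hs, smul_eq_mul]; ring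
  · simp only [den, Set.indicator_of_notMem hs, smul_zero]

theorem den_int' (k : ℕ) : MeasureTheory.Integrable (fun s : ℝ => s • den k s) := by
  have : (fun s : ℝ => s • den k s) = (Set.Icc (0 : ℝ) (1 / 16)).indicator
      fun s : ℝ => s • (-2 * Real.pi * Complex.I * s) ^ k := by
    funext s
    by_cases hs : s ∈ Set.Icc (0 : ℝ) (1 / 16)
    · simp only [den, Set.indicator_of_mem hs]
    · simp only [den, Set.indicator_of_notMem hs, smul_zero]
  rw [this]
  refine (MeasureTheory.integrable_indicator_iff measurableSet_Icc).2 ?_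
  exact Continuous.integrableOn_Icc (by fun_prop)

theorem den_deriv (k : ℕ) (t : ℝ) :
    HasDerivAt (fun s => (𝓕 (den k) s).re) (𝓕 (den (k + 1)) t).re t := by
  have := Real.hasDerivAt_fourier (den_int k) (den_int' k) t
  rw [den_succ] at this
  exact Complex.reCLM.hasFDerivAt.comp_hasDerivAt t this

theorem den_bound (k : ℕ) (t : ℝ) : |(𝓕 (den k) t).re| ≤ (1 / 2) ^ k := by
  refine (Complex.abs_re_le_norm _).trans ?_
  refine (VectorFourier.norm_fourierIntegral_le_integral_norm _ _ _ _ _).trans ?_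
  have h1 : ∀ s, ‖den k s‖ ≤ (Set.Icc (0 : ℝ) 1).indicator (fun _ => ((1 : ℝ) / 2) ^ k) s := by
    intro s
    by_cases hs : s ∈ Set.Icc (0 : ℝ) (1 / 16)
    · have hs' : s ∈ Set.Icc (0 : ℝ) 1 := ⟨hs.1, hs.2.trans (by norm_num)⟩
      simp only [den, Set.indicator_of_mem hs, Set.indicator_of_mem hs', norm_pow]
      gcongr
      have : ‖-2 * (Real.pi : ℂ) * Complex.I * (s : ℂ)‖ = 2 * Real.pi * s := by
        simp [abs_of_nonneg hs.1, abs_of_nonneg Real.pi_pos.le]
      rw [this]
      nlinarith [Real.pi_le_four, Real.pi_pos, hs.1, hs.2]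
    · simp only [den, Set.indicator_of_notMem hs, norm_zero]
      exact Set.indicator_nonneg (fun _ _ => by positivity) _
  refine (MeasureTheory.integral_mono (den_int k).norm ?_ h1).trans ?_
  · refine (MeasureTheory.integrable_indicator_iff measurableSet_Icc).2 ?_
    exact Continuous.integrableOn_Icc (by fun_prop)
  · rw [MeasureTheory.integral_indicator measurableSet_Icc]
    simp

noncomputable def F0 : X :=
  ⟨B.mk
   { toFun := fun p => (𝓕 (den p.1) p.2).re
     continuous_toFun := by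
      refine continuous_prod_of_discrete_left.2 fun k => ?_
      exact continuous_iff_continuousAt.2 fun t => (den_deriv k t).continuousAt
     zero_at_infty' := by
      rw [Metric.tendsto_nhds]
      intro ε hε
      obtain ⟨N, hN⟩ := exists_pow_lt_of_lt_one hε (show (1 / 2 : ℝ) < 1 by norm_num)
      have h1 : ∀ k, ∃ K : Set ℝ, IsCompact K ∧ ∀ t ∉ K, |(𝓕 (den k) t).re| < ε := by
        intro k
        have := (Real.zero_at_infty_fourier (den k)).norm
        rw [norm_zero] at this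
        obtain ⟨K, hK, hK'⟩ := mem_cocompact.1 (this.eventually (gt_mem_nhds hε))
        exact ⟨K, hK, fun t ht => (Complex.abs_re_le_norm _).trans_lt (hK' ht)⟩
      choose K hK hK' using h1
      refine mem_cocompact.2 ⟨⋃ k ∈ Finset.range N, {k} ×ˢ K k,
        (Finset.range N).isCompact_biUnion fun k _ => isCompact_singleton.prod (hK k), ?_⟩
      rintro ⟨k, t⟩ hp
      simp only [Set.mem_ofPred_eq, dist_zero_right, Real.norm_eq_abs]
      by_cases hk : k < N
      · refine hK' k t fun ht => hp ?_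
        simp only [Set.mem_iUnion]
        exact ⟨k, Finset.mem_range.2 hk, rfl, ht⟩
      · refine (den_bound k t).trans_lt (lt_of_le_of_lt ?_ hN)
        exact pow_le_pow_of_le_one (by norm_num) (by norm_num) (not_lt.1 hk) },
    fun k t => den_deriv k t⟩

theorem F0_val : F0.1 (0, 0) = 1 / 16 := by
  change (𝓕 (den 0) 0).re = _
  rw [Real.fourier_real_eq]
  simp only [mul_zero, neg_zero, AddChar.map_zero_eq_one, one_smul, den, pow_zero]
  rw [MeasureTheory.integral_indicator measurableSet_Icc]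
  simp

theorem S_ne : S 1 0 F0 ≠ 0 := by
  intro h
  have h1 : ∀ t, F0.1 (1, t) = 0 := by
    intro t
    have := S_apply 1 0 F0 0 t
    rw [h, add_zero] at this
    exact this.symm
  have h2 : ∀ t, F0.1 (0, t) = F0.1 (0, 0) := by
    intro t
    refine is_const_of_deriv_eq_zero (f := fun s => F0.1 (0, s))
      (fun s => (F0.2 0 s).differentiableAt) (fun s => ?_) t 0
    rw [(F0.2 0 s).deriv]; exact h1 s
  have h3 := tendsto_slice F0.1 0
  simp only [h2, F0_val] at h3
  have := tendsto_nhds_unique h3 tendsto_const_nhds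
  norm_num at this

end Aux

theorem result :
    ∃ (Y : Type) (_ : NormedAddCommGroup Y) (_ : NormedSpace ℝ Y) (_ : CompleteSpace Y)
      (T : Y →L[ℝ] Y), T ≠ 0 ∧ numRange T = {0} ∧
        IsEmpty (EuclideanSpace ℝ (Fin 2) →ₗᵢ[ℝ] Y) := by
  refine ⟨X, inferInstance, inferInstance, inferInstance, S 1 0, fun h => S_ne (by rw [h]; rfl),
    ?_, ⟨fun J => ?_⟩⟩
  · ext r
    constructor
    · rintro ⟨F, φ, hF, hφ, h, rfl⟩
      exact skew F φ hF hφ h
    · rintro rfl
      have h0 : F0 ≠ 0 := fun h => S_ne (by rw [h, map_zero])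
      have h1 : ‖(‖F0‖⁻¹ • F0 : X)‖ = 1 := by
        rw [norm_smul, norm_inv, norm_norm, inv_mul_cancel₀ (norm_ne_zero_iff.2 h0)]
      obtain ⟨φ, hφ, hφ'⟩ := exists_dual_vector ℝ (‖F0‖⁻¹ • F0 : X) (by rw [h1]; norm_num)
      have h2 : φ (‖F0‖⁻¹ • F0 : X) = 1 := by rw [hφ', h1]; rfl
      exact ⟨_, φ, h1, hφ, h2, (skew _ φ h1 hφ h2).symm⟩
  · refine no_plane (J (EuclideanSpace.single 0 1)) (J (EuclideanSpace.single 1 1)) fun a b hab => ?_
    rw [← map_smul, ← map_smul, ← map_add, J.norm_map, EuclideanSpace.norm_eq]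
    simp [Fin.sum_univ_two, hab]

end Pool.Agent.Results.MP_981724_an.NoPlane
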